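import Pool.Agent.Lib.MP_ef13ad_lc.F.Thin5

open Cardinal Ordinal Set Order

namespace Pool.Agent.MP_ef13ad_lc

theorem clash5 {l k v : Cardinal.{0}} {F : Ordinal.{0} → Ordinal.{0} → Ordinal.{0}}
    (T : Finset Cardinal.{0}) (hl : ℵ₀ ≤ l) (hn : v.ord ≤ l.ord)
    (hb : ∀ b < (succ l).ord, ∀ i < v.ord, F b i < l.ord)
    (hF : Inc v.ord F (succ l).ord) (hG : ∀ a < (succ l).ord, Good v.ord F a ∨ a.cof ∈ T)
    (hlk : CC l k) :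
    ∃ X : Set Ordinal.{0}, ¬ Sz X k ∧ (∀ x ∈ X, Sz (X ∩ Iio x) k) ∧ Sz (X ∩ Iio l.ord) k ∧
      (∀ z ∈ X, ∀ i ∈ X ∩ Iio v.ord, F z i ∈ X ∩ Iio l.ord) ∧
      ∀ u, ℵ₀ ≤ u → u < k → ThinAt X (X ∩ Iio v.ord) F u →
        CfLe X v u ∧ ∃ e ∈ T, ¬ CfLe X e u ∧ CfLe X e (succ u) := by
  obtain ⟨n, hnv⟩ : ∃ n, n = v.ord := ⟨_, rfl⟩
  rw [← hnv] at hn hb hF hG ⊢
  have hLl : IsSuccLimit (succ l).ord := isSuccLimit_ord (hl.trans (le_succ l))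
  have hL : 0 < (succ l).ord := hLl.pos
  have hlL : l.ord < (succ l).ord := ord_lt_ord.2 (lt_succ l)
  have hnL : n < (succ l).ord := hn.trans_lt hlL
  have hn0 : 0 < n := by
    obtain ⟨i, hi, -⟩ := (hF 0 (0 + 1) (lt_add_one _) (hLl.add_one_lt hL)).exists
    exact (zero_le (a := i)).trans_lt hi
  choose cs hcs1 hcs2 hcs3 using exists_cofSeq
  have hd : ∀ a, ∃ d : Ordinal.{0} → Ordinal.{0} → Ordinal.{0}, Good n F a →
      (∀ b b', b ≤ b' → b' < a → ∀ i < n, d b i ≤ d b' i) ∧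
      (∀ b < a, AE n (fun i => F b i ≤ d b i)) ∧
      ∀ b < a, ∃ b' < a, AE n (fun i => d b i < F b' i) := by
    intro a
    by_cases h : Good n F a
    · obtain ⟨d, hd⟩ := h
      exact ⟨d, fun _ => hd⟩
    · exact ⟨fun _ _ => 0, fun h' => absurd h' h⟩
  choose d hd using hd
  obtain ⟨g0, b0, s0⟩ := clash_skolem hL fun b i z => z = F b i
  obtain ⟨g1, b1, s1⟩ := clash_skolem hL fun a j z => z = cs a j
  obtain ⟨g2, b2, s2⟩ := clash_skolem hL fun a b z => z < a.cof.ord ∧ b ≤ cs a z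
  obtain ⟨g3, b3, s3⟩ := clash_skolem hL fun a b z => z < a ∧ AE n (fun i => d a b i < F z i)
  obtain ⟨g4, b4, s4⟩ := clash_skolem hL fun a b z =>
    z < n ∧ ∀ i, z ≤ i → i < n → d a b i < F (g3 a b) i
  obtain ⟨g5, b5, s5⟩ := clash_skolem hL fun a b z =>
    z < n ∧ ∀ i, z ≤ i → i < n → F b i ≤ d a b i
  obtain ⟨g6, b6, s6⟩ := clash_skolem hL fun b b' z =>
    z < n ∧ ∀ i, z ≤ i → i < n → F b i ≤ F b' i
  obtain ⟨X, hXL, -, hcl, hXk, -, hK, hinit⟩ := hlk.closed hl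
    (fun m => match m with
      | 0 => g0 | 1 => g1 | 2 => g2 | 3 => g3 | 4 => g4 | 5 => g5 | _ + 6 => g6)
    (fun m x _ y _ => match m with
      | 0 => b0 x y | 1 => b1 x y | 2 => b2 x y | 3 => b3 x y | 4 => b4 x y | 5 => b5 x y
      | _ + 6 => b6 x y)
  have c0 : ∀ x ∈ X, ∀ y ∈ X, g0 x y ∈ X := hcl 0
  have c1 : ∀ x ∈ X, ∀ y ∈ X, g1 x y ∈ X := hcl 1
  have c2 : ∀ x ∈ X, ∀ y ∈ X, g2 x y ∈ X := hcl 2
  have c3 : ∀ x ∈ X, ∀ y ∈ X, g3 x y ∈ X := hcl 3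
  have c4 : ∀ x ∈ X, ∀ y ∈ X, g4 x y ∈ X := hcl 4
  have c5 : ∀ x ∈ X, ∀ y ∈ X, g5 x y ∈ X := hcl 5
  have c6 : ∀ x ∈ X, ∀ y ∈ X, g6 x y ∈ X := hcl 6
  refine ⟨X, hXk, hinit, hK, ?_, ?_⟩
  · intro z hz i hi
    have h1 : F z i < l.ord := hb z (hXL hz) i hi.2
    exact ⟨s0 z i ⟨_, h1.trans hlL, rfl⟩ ▸ c0 z hz i hi.1, h1⟩
  rintro u hu' huk ⟨Z, hZX, hZ, hZs, hZi, C, hC, V, hCu, hVu, hCV⟩
  have hk : ℵ₀ < k := hu'.trans_lt huk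
  have hZne : Z.Nonempty := by
    rw [nonempty_iff_ne_empty]
    rintro rfl
    exact hZ (Sz_of_countable countable_empty hu')
  refine ⟨?_, ?_⟩
  · obtain ⟨z0, hz0⟩ := hZne
    refine ⟨C, hnv ▸ hC, hCu, fun x hx => ?_⟩
    obtain ⟨i, hi, h1, -⟩ := hCV z0 hz0 x (hnv ▸ hx)
    exact ⟨i, hi, h1⟩
  have hne : {x | x ∈ X ∧ ∀ z ∈ Z, z < x}.Nonempty := by
    by_contra h
    refine hXk (clash_cover hk.le (hZs.trans_le (succ_le_of_lt huk))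
      (fun y hy => hinit y (hZX hy)) fun w hw => ?_)
    by_contra h'
    push Not at h'
    exact h ⟨w, hw, h'⟩
  obtain ⟨a, ⟨haX, haZ⟩, hmin⟩ : ∃ a, (a ∈ X ∧ ∀ z ∈ Z, z < a) ∧
      ∀ x ∈ X, x < a → ∃ z ∈ Z, x ≤ z := by
    refine ⟨_, csInf_mem hne, fun x hx hlt => ?_⟩
    by_contra h'
    push Not at h'
    exact hlt.not_ge (csInf_le' ⟨hx, h'⟩)
  have haL : a < (succ l).ord := hXL haX
  rcases hG a haL with hg | hT
  · exfalso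
    obtain ⟨d1, d2, d3⟩ := hd a hg
    have key : ∀ b ∈ Z, ∃ z ∈ Z, ∃ i ∈ C, F z i ∈ V ∧ d a b i < F z i ∧ F z i ≤ d a z i := by
      intro b hbZ
      have hbX := hZX hbZ
      obtain ⟨x1, x2⟩ := s3 a b (by
        obtain ⟨b', h1, h2⟩ := d3 b (haZ b hbZ)
        exact ⟨b', h1.trans haL, h1, h2⟩)
      obtain ⟨z, hz, hxz⟩ := hmin _ (c3 a haX b hbX) x1
      obtain ⟨y1, y2⟩ := s4 a b (by
        obtain ⟨j, h1, h2⟩ := x2
        exact ⟨j, h1.trans hnL, h1, h2⟩)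
      obtain ⟨y3, y4⟩ := s5 a z (by
        obtain ⟨j, h1, h2⟩ := d2 z (haZ z hz)
        exact ⟨j, h1.trans hnL, h1, h2⟩)
      obtain ⟨y5, y6⟩ := s6 (g3 a b) z (by
        obtain ⟨j, h1, h2⟩ := hF.le hn0 hxz (hXL (hZX hz))
        exact ⟨j, h1.trans hnL, h1, h2⟩)
      obtain ⟨i, hi, hsi, hV⟩ := hCV z hz (max (max (g4 a b) (g5 a z)) (g6 (g3 a b) z))
        ⟨clash_max_mem (clash_max_mem (c4 a haX b hbX) (c5 a haX z (hZX hz)))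
          (c6 _ (c3 a haX b hbX) z (hZX hz)), max_lt (max_lt y1 y3) y5⟩
      have hin : i < n := (hC hi).2
      rw [max_le_iff, max_le_iff] at hsi
      exact ⟨z, hz, i, hi, hV, (y2 i hsi.1.1 hin).trans_le (y6 i hsi.2 hin), y4 i hsi.1.2 hin⟩
    choose! zz hzz ii hii hV h1 h2 using key
    obtain ⟨i, hi, w, -, hfib⟩ := pigeon2 ii (fun b => F (zz b) (ii b)) hu' hZ hCu hVu hii hV
    obtain ⟨b, hbZ, e1, e2⟩ : {b | b ∈ Z ∧ ii b = i ∧ F (zz b) (ii b) = w}.Nonempty := by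
      by_contra h
      rw [not_nonempty_iff_eq_empty] at h
      exact hfib (Sz_of_subsingleton (h ▸ subsingleton_empty) hu')
    obtain ⟨b', ⟨hbZ', e1', e2'⟩, hle⟩ :
        ∃ b' ∈ {b | b ∈ Z ∧ ii b = i ∧ F (zz b) (ii b) = w}, zz b ≤ b' := by
      by_contra h
      push Not at h
      exact hfib ((hZi _ (hzz b hbZ)).mono fun y hy => ⟨hy.1, h y hy⟩)
    have a1 := h2 b hbZ
    have a2 := h1 b' hbZ'
    have a3 := d1 _ _ hle (haZ b' hbZ') i (hC hi).2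
    rw [e2, e1] at a1
    rw [e2', e1'] at a2
    exact ((a1.trans a3).trans_lt a2).false
  · have hg2 : ∀ w ∈ Z, g2 a w < a.cof.ord ∧ w ≤ cs a (g2 a w) := fun w hw => s2 a w (by
      obtain ⟨j, h1, h2⟩ := hcs3 a w (haZ w hw)
      exact ⟨j, (h1.trans_le (ord_cof_le a)).trans haL, h1, h2⟩)
    have key0 : ∀ j ∈ X ∩ Iio a.cof.ord, ∃ z ∈ Z, cs a j ≤ z := by
      intro j hj
      have h1 : cs a j < a := hcs2 a j hj.2
      exact hmin _ (s1 a j ⟨_, h1.trans haL, rfl⟩ ▸ c1 a haX j hj.1) h1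
    refine ⟨a.cof, hT, ?_, g2 a '' Z, ?_, hZs.image _, fun j hj => ?_⟩
    · rintro ⟨C', hC', hs', hcf⟩
      have key : ∀ j ∈ C', ∃ z ∈ Z, cs a j ≤ z := fun j hj => key0 j (hC' hj)
      choose! zz hzz hle' using key
      refine hZ (clash_cover hu' (hs'.image zz) ?_ fun w hw => ?_)
      · rintro _ ⟨j, hj, rfl⟩
        exact hZi _ (hzz j hj)
      · obtain ⟨x1, x2⟩ := hg2 w hw
        obtain ⟨j, hj, hj'⟩ := hcf _ ⟨c2 a haX w (hZX hw), x1⟩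
        exact ⟨_, ⟨j, hj, rfl⟩, x2.trans
          (((hcs1 a).monotoneOn x1 (hC' hj).2 hj').trans (hle' j hj))⟩
    · rintro _ ⟨w, hw, rfl⟩
      exact ⟨c2 a haX w (hZX hw), (hg2 w hw).1⟩
    · obtain ⟨z, hz, hz'⟩ := key0 j hj
      exact ⟨_, ⟨z, hz, rfl⟩,
        ((hcs1 a).le_iff_le hj.2 (hg2 z hz).1).1 (hz'.trans (hg2 z hz).2)⟩

end Pool.Agent.MP_ef13ad_lc
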