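import Pool.Agent.Lib.MP_ef13ad_lc.F.Four
import Pool.Agent.Lib.MP_ef13ad_lc.Global

open Cardinal Ordinal Set Order

namespace Pool.Agent.MP_ef13ad_lc

theorem five_sing (a : Ordinal.{0}) {i : ℕ} (hi : 1 ≤ i) :
    ℵ_ a < ℵ_ (a + ω * i) ∧ (ℵ_ (a + ω * i)).ord.cof = ℵ₀ ∧ (ℵ_ (a + ω * i)).IsSingular := by
  obtain ⟨j, rfl⟩ : ∃ j, i = j + 1 := ⟨i - 1, by omega⟩
  have hw : IsSuccLimit (ω : Ordinal.{0}) := isSuccLimit_omega0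
  have e : (ω * ((j + 1 : ℕ) : Ordinal.{0})) = ω * j + ω := by
    rw [Nat.cast_add_one, mul_add_one]
  rw [e]
  have hl2 : IsSuccLimit (ω * (j : Ordinal.{0}) + ω) := isSuccLimit_add _ hw
  obtain ⟨-, u1, u2⟩ := global_sing (isSuccLimit_add a hl2) (by
    rw [cof_add _ hl2.ne_bot, cof_add _ omega0_ne_zero, cof_omega0])
  exact ⟨aleph_lt_aleph.2 (lt_add_of_pos_right a hl2.pos), u1, u2⟩

theorem five_lt (a : Ordinal.{0}) {i j : ℕ} (h : i < j) :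
    ℵ_ (a + ω * i) < ℵ_ (a + ω * j) :=
  aleph_lt_aleph.2 (add_lt_add_right (mul_lt_mul_of_pos_left (Nat.cast_lt.2 h) omega0_pos) a)

theorem five_pairs (a : Ordinal.{0}) :
    ∃ k l : Cardinal.{0},
      ((k = ℵ_ (a + ω * 5) ∧ l = ℵ_ (ω_ (a + ω * 5 + 1))) ∨
        (l = ℵ_ (a + ω * 5) ∧ ∃ i : ℕ, 1 ≤ i ∧ i ≤ 4 ∧ k = ℵ_ (a + ω * i))) ∧
      ℵ_ a < k ∧ k < l ∧ l ≤ ℵ_ (ω_ (a + ω * 5 + 1)) ∧ k.IsSingular ∧ l.IsSingular ∧
      (k < l.ord.cof ∨ k.ord.cof = l.ord.cof) ∧ ¬ CC l k := by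
  by_contra h
  push Not at h
  have e5 : ((5 : ℕ) : Ordinal.{0}) = 5 := Nat.cast_ofNat
  obtain ⟨k0, k1, k2⟩ := five_sing a (i := 5) (by norm_num)
  have lt5 : ∀ i : ℕ, i ≤ 4 → ℵ_ (a + ω * i) < ℵ_ (a + ω * 5) := fun i hi =>
    e5 ▸ five_lt a (j := 5) (by omega)
  rw [e5] at k0 k1 k2
  have hv : (ℵ_ (a + ω * 5 + 1)).IsRegular := isRegular_aleph_add_one _
  have hlim : IsSuccLimit (ω_ (a + ω * 5 + 1)) := by
    rw [← ord_aleph]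
    exact isSuccLimit_ord hv.aleph0_le
  have hkv : ℵ_ (a + ω * 5) < ℵ_ (a + ω * 5 + 1) := aleph_lt_aleph.2 (lt_add_one _)
  have hlt : ℵ_ (a + ω * 5 + 1) < ℵ_ (ω_ (a + ω * 5 + 1)) := by
    rw [aleph_lt_aleph]
    exact hlim.add_one_lt ((le_omega_self _).trans_lt (omega_lt_omega.2 (lt_add_one _)))
  have hcof : (ℵ_ (ω_ (a + ω * 5 + 1))).ord.cof = ℵ_ (a + ω * 5 + 1) := by
    rw [ord_aleph, cof_omega hlim, cof_omega_add_one]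
  have low : ∀ i : ℕ, 1 ≤ i → i ≤ 4 → CC (ℵ_ (a + ω * 5)) (ℵ_ (a + ω * i)) := by
    intro i h1 h4
    obtain ⟨u0, u1, u2⟩ := five_sing a h1
    exact h _ _ (Or.inr ⟨rfl, i, h1, h4, rfl⟩) u0 (lt5 i h4) (hkv.trans hlt).le u2 k2
      (Or.inr (u1.trans k1.symm))
  refine local_four hv (by rw [ord_aleph]; exact hlt) k1 ?_ (aleph0_le_aleph _)
    (five_lt a (i := 1) (j := 2) (by norm_num)) (five_lt a (i := 2) (j := 3) (by norm_num))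
    (five_lt a (i := 3) (j := 4) (by norm_num)) (lt5 4 le_rfl)
    (low 1 le_rfl (by norm_num)) (low 2 (by norm_num) (by norm_num))
    (low 3 (by norm_num) (by norm_num)) (low 4 (by norm_num) le_rfl)
  rw [ord_aleph]
  exact h _ _ (Or.inl ⟨rfl, rfl⟩) k0 (hkv.trans hlt) le_rfl k2
    (isSingular_aleph_iff.2 ⟨hlim, by rw [cof_omega_add_one]; exact hlt⟩)
    (Or.inl (by rw [hcof]; exact hkv))

end Pool.Agent.MP_ef13ad_lc
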