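import Pool.Agent.Lib.MP_ef13ad_lc.F.Clash5
import Pool.Agent.Lib.MP_ef13ad_lc.Local

open Cardinal Ordinal Set Order

namespace Pool.Agent.MP_ef13ad_lc

theorem four_three {α : Type*} {a b c e1 e2 e3 e4 : α} (h1 : e1 = a ∨ e1 = b ∨ e1 = c)
    (h2 : e2 = a ∨ e2 = b ∨ e2 = c) (h3 : e3 = a ∨ e3 = b ∨ e3 = c)
    (h4 : e4 = a ∨ e4 = b ∨ e4 = c) (n12 : e1 ≠ e2) (n13 : e1 ≠ e3) (n14 : e1 ≠ e4)
    (n23 : e2 ≠ e3) (n24 : e2 ≠ e4) (n34 : e3 ≠ e4) : False := by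
  grind

/-- If `v` is regular, `v < ℵ_v`, `k` is uncountable of countable cofinality and `CC (ℵ_v) k`
holds, then there are no four infinite `u < k` with `CC k u`. -/
theorem local_four {v k u1 u2 u3 u4 : Cardinal.{0}} (hv : v.IsRegular) (hlt : v < ℵ_ v.ord)
    (hk' : k.ord.cof = ℵ₀) (h : CC (ℵ_ v.ord) k) (h0 : ℵ₀ ≤ u1) (h12 : u1 < u2) (h23 : u2 < u3)
    (h34 : u3 < u4) (h4 : u4 < k) (c1 : CC k u1) (c2 : CC k u2) (c3 : CC k u3) (c4 : CC k u4) :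
    False := by
  have hk : ℵ₀ < k := h0.trans_lt (h12.trans (h23.trans (h34.trans h4)))
  obtain ⟨F, f1, f2, f3⟩ := exists_good_seq hv hlt
  obtain ⟨X, x1, x2, x3, x4, x5⟩ :=
    clash5 _ (aleph0_le_aleph _) (ord_le_ord.2 hlt.le) f1 f2 f3 h
  have one : ∀ u, ℵ₀ ≤ u → u < k → ThinAt X (X ∩ Iio v.ord) F u →
      ∃ e, (e = succ v ∨ e = succ (succ v) ∨ e = succ (succ (succ v))) ∧ ¬ CfLe X e u ∧
        ∀ u', u < u' → CfLe X e u' := by
    intro u hu huk hT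
    obtain ⟨y1, e, he, y2, y3⟩ := x5 u hu huk hT
    refine ⟨e, ?_, y2, fun u' hu' => y3.mono (succ_le_of_lt hu')⟩
    have small : e ≤ 1 → False := fun h1 => y2 ⟨_, subset_rfl,
      (Sz_Iio_ord e).trans_le (h1.trans (one_le_aleph0.trans hu)) |>.mono inter_subset_right,
      fun x hx => ⟨x, hx, le_rfl⟩⟩
    simp only [Finset.mem_insert, Finset.mem_singleton] at he
    rcases he with he | he | he | he
    · exact (small (he ▸ zero_le_one)).elim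
    · exact (small he.le).elim
    · exact (y2 (he ▸ y1)).elim
    · exact he
  have four : ∀ w1 w2 w3 w4, ℵ₀ ≤ w1 → w1 < w2 → w2 < w3 → w3 < w4 → w4 < k →
      ThinAt X (X ∩ Iio v.ord) F w1 → ThinAt X (X ∩ Iio v.ord) F w2 →
      ThinAt X (X ∩ Iio v.ord) F w3 → ThinAt X (X ∩ Iio v.ord) F w4 → False := by
    intro w1 w2 w3 w4 a0 a1 a2 a3 a4 t1 t2 t3 t4
    have b2 : ℵ₀ ≤ w2 := a0.trans a1.le
    have b3 : ℵ₀ ≤ w3 := b2.trans a2.le
    have b4 : ℵ₀ ≤ w4 := b3.trans a3.le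
    obtain ⟨e1, m1, -, p1⟩ := one w1 a0 (a1.trans (a2.trans (a3.trans a4))) t1
    obtain ⟨e2, m2, n2, p2⟩ := one w2 b2 (a2.trans (a3.trans a4)) t2
    obtain ⟨e3, m3, n3, p3⟩ := one w3 b3 (a3.trans a4) t3
    obtain ⟨e4, m4, n4, -⟩ := one w4 b4 a4 t4
    exact four_three m1 m2 m3 m4 (fun e => n2 (e ▸ p1 _ a1)) (fun e => n3 (e ▸ p1 _ (a1.trans a2)))
      (fun e => n4 (e ▸ p1 _ (a1.trans (a2.trans a3)))) (fun e => n3 (e ▸ p2 _ a2))
      (fun e => n4 (e ▸ p2 _ (a2.trans a3))) (fun e => n4 (e ▸ p3 _ a3))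
  rcases exists_thin5 (F := F) (D := X ∩ Iio v.ord) hk hk' x1 x2 x3
    (inter_subset_inter_right X (Iio_subset_Iio (ord_le_ord.2 hlt.le))) x4 with hA | ⟨u0, hu0, hB⟩
  · have b2 : ℵ₀ ≤ u2 := h0.trans h12.le
    have b3 : ℵ₀ ≤ u3 := b2.trans h23.le
    have b4 : ℵ₀ ≤ u4 := b3.trans h34.le
    exact four _ _ _ _ h0 h12 h23 h34 h4 (hA _ h0 c1) (hA _ b2 c2) (hA _ b3 c3) (hA _ b4 c4)
  · have hs : ∀ c, ℵ₀ ≤ c → c < k → succ c < k := by
      intro c hc hck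
      refine lt_of_le_of_ne (succ_le_of_lt hck) fun e => ?_
      have h1 := (isRegular_succ hc).cof_ord
      rw [e, hk'] at h1
      exact hk.ne h1
    have w0 : ℵ₀ ≤ max u0 ℵ₀ := le_max_right _ _
    have w1 : max u0 ℵ₀ < k := max_lt hu0 hk
    have v1 : u0 ≤ max u0 ℵ₀ := le_max_left _ _
    have w2 := hs _ w0 w1
    have w3 := hs _ (w0.trans (le_succ _)) w2
    have w4 := hs _ (w0.trans ((le_succ _).trans (le_succ _))) w3
    exact four _ _ _ _ w0 (lt_succ _) (lt_succ _) (lt_succ _) w4 (hB _ v1 w1)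
      (hB _ (v1.trans (le_succ _)) w2) (hB _ (v1.trans ((le_succ _).trans (le_succ _))) w3)
      (hB _ (v1.trans ((le_succ _).trans ((le_succ _).trans (le_succ _)))) w4)

end Pool.Agent.MP_ef13ad_lc
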