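import Pool.Agent.Lib.MP_ef13ad_lc.Thin
import Pool.Agent.Lib.MP_ef13ad_lc.R.Cases
import Pool.Agent.Lib.MP_ef13ad_lc.R.NoThin

open Cardinal Ordinal Set Order

namespace Pool.Agent.MP_ef13ad_lc

/-- Thin data at `u`: a subset of `X` of type `u⁺` whose `F`-values lie cofinally often in a set
of size at most `u`. -/
def ThinAt (X D : Set Ordinal.{0}) (F : Ordinal.{0} → Ordinal.{0} → Ordinal.{0})
    (u : Cardinal.{0}) : Prop :=
  ∃ Z ⊆ X, ¬ Sz Z u ∧ Sz Z (succ u) ∧ (∀ z ∈ Z, Sz (Z ∩ Iio z) u) ∧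
    ∃ C ⊆ D, ∃ V, Sz C u ∧ Sz V u ∧ ∀ z ∈ Z, ∀ s ∈ D, ∃ i ∈ C, s ≤ i ∧ F z i ∈ V

/-- `X ∩ e` has a cofinal subset of size at most `c`. -/
def CfLe (X : Set Ordinal.{0}) (e c : Cardinal.{0}) : Prop :=
  ∃ C ⊆ X ∩ Iio e.ord, Sz C c ∧ ∀ x ∈ X ∩ Iio e.ord, ∃ y ∈ C, x ≤ y

theorem CfLe.mono {X : Set Ordinal.{0}} {e c c' : Cardinal.{0}} (h : CfLe X e c) (hc : c ≤ c') :
    CfLe X e c' := by
  obtain ⟨C, h1, h2, h3⟩ := h
  exact ⟨C, h1, h2.trans_le hc, h3⟩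

theorem exists_thin5 {k : Cardinal.{0}} {X K D : Set Ordinal.{0}}
    {F : Ordinal.{0} → Ordinal.{0} → Ordinal.{0}} (hk : ℵ₀ < k) (hk' : k.ord.cof = ℵ₀)
    (hX : ¬ Sz X k) (hX' : ∀ x ∈ X, Sz (X ∩ Iio x) k) (hK : Sz K k) (hD : D ⊆ K)
    (hF : ∀ z ∈ X, ∀ i ∈ D, F z i ∈ K) :
    (∀ u, ℵ₀ ≤ u → CC k u → ThinAt X D F u) ∨
      ∃ u0 < k, ∀ u, u0 ≤ u → u < k → ThinAt X D F u := by
  rcases D.eq_empty_or_nonempty with rfl | hDne
  · refine Or.inl fun u hu hcc => ?_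
    obtain ⟨Z, h1, h2, h3, h4⟩ := thin_sub hcc hk.le hX hX'
    exact ⟨Z, h1, h2, h3, h4, ∅, subset_rfl, ∅, Sz_of_countable countable_empty hu,
      Sz_of_countable countable_empty hu, fun _ _ s hs => absurd hs (notMem_empty s)⟩
  by_cases hc : ∃ t : ℕ → Ordinal.{0}, (∀ m, t m ∈ D) ∧ ∀ s ∈ D, ∃ m, s ≤ t m
  · obtain ⟨t, ht, ht'⟩ := hc
    refine Or.inl fun u hu hcc => ?_
    obtain ⟨Z, h1, h2, h3, h4, V, h5, h6⟩ := hcc.transfer hk.le hX hX' hK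
      (fun m z => F z (t m)) (fun m z hz => hF z hz _ (ht m))
    refine ⟨Z, h1, h2, h3, h4, range t, range_subset_iff.2 ht, V,
      Sz_of_countable (countable_range t) hu, h5, fun z hz s hs => ?_⟩
    obtain ⟨m, hm⟩ := ht' s hs
    exact ⟨t m, mem_range_self m, hm, h6 m z hz⟩
  · obtain ⟨B, hB, hBK, hBs⟩ := filt_of_cof hk' hK
    have key : ∀ z ∈ X, ∃ m : ℕ, ∀ s ∈ D, ∃ i ∈ D ∩ B m, s ≤ i ∧ F z i ∈ B m := by
      intro z hz
      by_contra hn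
      push Not at hn
      choose t ht ht' using hn
      apply hc
      refine ⟨t, ht, fun s hs => ?_⟩
      obtain ⟨m1, hm1⟩ := hBK s (hD hs)
      obtain ⟨m2, hm2⟩ := hBK _ (hF z hz s hs)
      refine ⟨max m1 m2, ?_⟩
      by_contra hlt
      exact ht' (max m1 m2) s ⟨hs, hB (le_max_left _ _) hm1⟩ (not_le.1 hlt).le
        (hB (le_max_right _ _) hm2)
    choose! μ hμ using key
    obtain ⟨_, ⟨m, rfl⟩, hE⟩ := pigeon1 (B1 := range (Nat.cast : ℕ → Ordinal.{0}))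
      (fun z => (μ z : Ordinal.{0})) hk.le hX (Sz_of_countable (countable_range _) hk.le)
      (fun a _ => mem_range_self _)
    obtain ⟨c, hck, hc'⟩ := hBs m
    refine Or.inr ⟨max c ℵ₀, max_lt hck hk, fun u hcu huk => ?_⟩
    have hcu' : c ≤ u := (le_max_left _ _).trans hcu
    obtain ⟨Z, h1, h2, h4⟩ := cases_thin (u := u) fun h => hE (h.trans_le huk.le)
    refine ⟨Z, fun z hz => (h1 hz).1, h2, noThin_succ ((le_max_right _ _).trans hcu) h4, h4,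
      D ∩ B m, inter_subset_left, B m,
      (hc'.trans_le hcu').mono inter_subset_right, hc'.trans_le hcu', fun z hz s hs => ?_⟩
    have hm : μ z = m := Nat.cast_injective (h1 hz).2
    have := hμ z (h1 hz).1 s hs
    rwa [hm] at this

end Pool.Agent.MP_ef13ad_lc
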